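import Pool.Agent.Run7.h334.CommL

/-!
# Adjoint divisors and commuting birational self-maps

Let `X` be a normal projective variety of dimension `n` with canonical singularities, for instance a
projective manifold, and let `L` be a nef Cartier divisor on `X` such that `q L = a K_X + b M` with
`q ≥ 1`, `a, b ≥ 0` and a Cartier divisor `M` (in the generalised abundance conjecture `a = b = 1` and
`M = q L - K_X` is nef). Let `ℤ ^ r`, `r ≥ 1`, act on `X` by birational self-maps `f_v` which preserve
the numerical class of `M` (the class of `M - f_v^* M` on `X` is pseudo-effective for all `v`), such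
that for some `ε > 0` each `f_v`, `v ≠ 0`, has a dynamical degree which is at least `1 + ε`. No
assumption is made on the pull backs of `K_X` and of `L`.

Then `r ≤ n - 1`, the numerical dimension of `L` is at most `n - 1 - r`, and so is the Iitaka
dimension. If `κ (L) ≥ n - 1 - r`, then `κ (L) = ν (L)`. For `r = n - 1` this says that `L` is
numerically trivial, so that the generalised abundance conjecture is true for `L`.

If `κ (L) = ν (L)` and `q L - K_X` is nef, then `L` is semiample, by the theorem of Kawamata (1985),
which is not formalised here. So the conjecture holds for `L` also if `r = n - 2` and some positive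
multiple of `L` moves in a pencil.

The variety is given by the homogeneous coordinates `y` of its generic point (`NormalModel`), the
maps by the automorphisms `ρ v = f_v^*` of the function field `K`, the divisors by their
multiplicities along the prime divisors `P` of `X`. `Canonical` says that `X` has canonical
singularities, `IsCanonicalDivisor y n C` that `C` is the divisor of a rational `n`-form, `Cartier`
that a divisor has local equations, `Nef` that `m L + H` is semiample for all `m ≥ 1`, `PullLe y M φ 1`
that the class of `M - f^* M` is pseudo-effective on `X`. `DynDegree y n φ p δ` says that `δ` is the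
`p`-th dynamical degree, the growth rate of `(f^m)^* H ^ p · H ^ (n - p)`, and `NumLt y n L j` that
`ν (L) < j`. `IitakaGe`, `IitakaEq` and `NumEq` say `κ (L) ≥ k`, `κ (L) = k` and `ν (L) = k`.
-/

set_option autoImplicit false

open FF Pool.Agent.W602.GT Pool.Agent.Y172 Pool.Agent.R887 Pool.Agent.T2H06.DYL
open Pool.Agent.T2H06.DYN (DynDegree)
open Pool.Agent.T2H08.CM (IsCanonicalDivisor can_divisor add_divisor)

namespace Pool.Agent.Results.MP_1149f4_ag.CommutingMaps

/-- Let `X` be a normal projective variety of dimension `n > 0` with canonical singularities, `C` a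
canonical divisor, `M` and `L` Cartier divisors, `L` nef, such that `q L = a C + b M`, where `q ≥ 1`
and `a, b ≥ 0`. Let `ρ` be an action of `ℤ ^ r`, `r ≥ 1`, on `X` by birational self-maps which preserve
the class of `M`, such that for all `v ≠ 0` some dynamical degree of `ρ v` is at least `1 + ε`, where
`ε > 0`. Then `r < n`, `ν (L) < n - r`, `κ (L) < n - r`; and `κ (L) = ν (L) = n - r - 1` if
`κ (L) ≥ n - r - 1`. If `r = n - 1` then (`ν (L) < 1`, and) the sections `g ≠ 0` of `m L`, `m ≥ 1`, have
no zeros: `div g + m L = 0`. -/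
theorem result {K : Type} [Field K] [Algebra ℂ K] {N n : ℕ} {y : Fin (N + 1) → K}
    (hy : NormalModel y) (hn : Algebra.trdeg ℂ K = n) (hn0 : 0 < n) (hcan : Canonical y n)
    {C M L : Place ℂ K → ℚ} (hC : IsCanonicalDivisor y n C) (hM : IsDivisor y M)
    (hMcar : Cartier y n M) (hcar : Cartier y n L) (hnef : Nef y n L) {q a b : ℕ} (hq : 1 ≤ q)
    (hL : q • L = a • C + b • M) {r : ℕ} (hr : 0 < r) {ρ : (Fin r → ℤ) → (K ≃ₐ[ℂ] K)}
    (hρ : ∀ v w, ρ (v + w) = ρ v * ρ w) (hle : ∀ v, PullLe y M (ρ v : K →ₐ[ℂ] K) 1)
    {ε : ℝ} (hε : 0 < ε)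
    (hent : ∀ v : Fin r → ℤ, v ≠ 0 → ∃ p ≤ n, ∃ δ : ℝ, 1 + ε ≤ δ ∧ DynDegree y n (ρ v) p δ) :
    r < n ∧ NumLt y n L (n - r) ∧ ¬ IitakaGe y L (n - r) ∧
      (IitakaGe y L (n - r - 1) → IitakaEq y L (n - r - 1) ∧ NumEq y n L (n - r - 1)) ∧
      (r + 1 = n → ∀ m : ℕ, 1 ≤ m → ∀ g : K, IsSec y (m • L) g → g ≠ 0 →
        ∀ P, IsPrimeDivisor y P → (P.ord g : ℚ) = -(m * L P)) := by
  have hD : IsDivisor y L := Pool.Agent.T2H06.ASM.divisor_of_mul hq (by
    rw [hL]
    exact add_divisor (can_divisor hy hn hC) hM a b)
  have hpull : ∀ v, PullLe y L (ρ v : K →ₐ[ℂ] K) 1 := fun v =>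
    Pool.Agent.T2H06.ASM.pull_of_mul hq (by
      rw [hL]
      exact Pool.Agent.T2H06.ASM.adj_pullR hy hn hcan hC hMcar a b _ (hle v))
  exact Run7.h334.CommL.main hr hρ hy hn hn0 hD hcar hnef hpull hε hent

end Pool.Agent.Results.MP_1149f4_ag.CommutingMaps
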