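import Pool.Agent.Run7.h260.TW.Fin

/-!
# Generalised abundance for the images of towers

A tower of dimension `n` with the bound `s` (`Tower c n Base K s`) is a sequence of dominant rational
maps of finite degree `V = V_0 ⇢ V_1 ⇢ ... ⇢ V_k` between varieties of dimension `n` over `ℂ`. At the step
`V_i ⇢ V_(i + 1)`, of degree `b_i`, the canonical bundle of `V_i` is positive relative to `V_(i + 1)`
(`Positive`): `V_(i + 1)` is the image of `V_i` in a projective space, and for all varieties `Y'`,
`V_i ⇢ Y' ⇢ V_(i + 1)`, of degree `> 1` over `V_(i + 1)` there is a section of `K_(V_i) - m H` with a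
nonzero trace on `Y'`, where `s_i ≤ [V_i : Y'] (m + 1)`; for instance cyclic coverings of prime degree
branched along a sufficiently positive divisor. The bounds are `s_0 = s`, `s_(i + 1) = ⌊s_i / b_i⌋`. The
last variety `V_k`, with the bound `s_k`, is

* a smooth hypersurface of degree `d` in `ℙ^(n + 1)`, where for some `N` one has `d ≥ 7 N + n + 6`,
  `d > (n + 1) N`, `d > c (N + n - 1)` and `s_k < (N + 1) (d - n - N)`; or
* any variety with a generically finite map, of any degree, to a variety in `ℙ^(M + 1)` which is cut out
  by equations of degree at most `D` and has the regular canonical forms `P(x) ω₀` for all forms `P`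
  of degree `m`, for instance a smooth complete intersection of codimension at least two with
  `K = O(m)`; where for some `N` one has `m ≥ 7 N + 4`, `m + M + 2 > (M + 1) N`, `m + 2 ≥ D + N` and
  `s_k < (N + 1) (m + 2 - N)`; or
* any uniruled variety, without condition on `s_k`.

**Theorem.** Let `V` be the first variety of a tower with the bound `s = 2 r` (and `c = 3`), and let `X` be
a variety with a dominant rational map `V ⇢ X` of degree `r`. The map is arbitrary: not a quotient by a
group, not related to the tower, with any ramification. Then these are equivalent: `K_X` is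
pseudoeffective; `κ(X) ≥ 0`; `p_g(X) ≠ 0`; `K_X` is big; `X` is not uniruled.

So Q1 has a positive answer for all projective manifolds `X` which are birational to such a variety, and
for all `L`: if `K_X` is pseudoeffective then it is big; so if `L` and `m L - K_X` are nef then
`m L = (m L - K_X) + K_X` is the sum of a nef and a big divisor, `L` is nef and big, and
`(m + 1) L - K_X` is nef and big; by the base point free theorem of Kawamata and Shokurov `L` is
semiample, not only numerically semiample. (The last steps are not formalised.) In particular there is
no condition on the numerical dimension of `m L - K_X`, which may be zero: the case `L = K_X`, `m = 1` is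
the abundance conjecture for `X`.

With the best `N` the bound for the degree `r` is of the order of `b d ^ 2` (`b = b_0 ... b_(k - 1)`) for
towers over hypersurfaces of degree `d`, and of the order of `b m ^ 2` for towers over coverings of
complete intersections. 

The equivalences are helper260's (`Pool/Agent/Run7/h260/TW/Fin.lean`), who handed them in for the
abundance conjecture as `MP_5ff3c6_ag.ImagesOfTowers`; this file is a port to the generalised abundance
conjecture of Lazić and Peternell. Proof: if `X` is not of general type then the traces of the canonical
forms to `X` do not separate the general points of `X`, and at each step `V_i ⇢ X` factors through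
`V_(i + 1)`; at the bottom the theorems on hypersurfaces and on complete intersections of quadratic
degree (`N162/HN`, `N162/GP`) are used. The starting results of this question are about varieties with
self-maps.
-/

set_option autoImplicit false

open FF Pool.Agent.W602.GT
open Pool.Agent.W619.PQ (IsUniruled)
open Pool.Agent.R882.Over (GenusZero)
open Pool.Agent.Run7.h260.TW (Tower)

namespace Pool.Agent.Results.MP_1149f4_ag.ImagesOfTowers

/-- **Images of towers.** Let `K` be the function field of the first variety `V` of a tower of dimension
`n ≥ 1` with the bound `2 [K : L]` over a smooth hypersurface, a covering of a variety of low degree, or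
a uniruled variety, where `L ⊆ K` is the function field of `X`. Then these are equivalent: `K_X` is
pseudoeffective; `κ(X) ≥ 0`; `p_g(X) ≠ 0`; `K_X` is big; `X` is not uniruled. -/
theorem result {n : ℕ} (hn : 1 ≤ n) {K : Type} [Field K] [Algebra ℂ K] [Algebra.EssFiniteType ℂ K]
    (hK : Algebra.trdeg ℂ K = n) (L : Type) [Field L] [Algebra ℂ L] [Algebra L K]
    [IsScalarTower ℂ L K] [FiniteDimensional L K]
    (h : Tower 3 n (fun E _ _ => IsUniruled ℂ E n) K (2 * Module.finrank L K)) :
    [Psef ℂ L n (fun _ => False), KodGe ℂ L n (fun _ => False) 0, ¬ GenusZero L n,
      GeneralType ℂ L n, ¬ IsUniruled ℂ L n].TFAE := by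
  have h0 := Pool.Agent.Run7.h260.TW.gt_uniruled L hn hK le_rfl le_rfl h
  have h1 : ¬ GeneralType ℂ L n ↔ ¬ Psef ℂ L n (fun _ => False) := h0.out 0 3
  have h2 : ¬ GeneralType ℂ L n ↔ ¬ KodGe ℂ L n (fun _ => False) 0 := h0.out 0 2
  have h3 : ¬ GeneralType ℂ L n ↔ GenusZero L n := h0.out 0 1
  have h4 : ¬ GeneralType ℂ L n ↔ IsUniruled ℂ L n := h0.out 0 4
  tfae_have 4 ↔ 1 := not_iff_not.1 h1
  tfae_have 4 ↔ 2 := not_iff_not.1 h2
  tfae_have 4 ↔ 3 := by rw [← h3, not_not]
  tfae_have 4 ↔ 5 := by rw [← h4, not_not]
  tfae_finish

end Pool.Agent.Results.MP_1149f4_ag.ImagesOfTowers
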