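import Pool.Agent.Run7.h323.GA.Main
import Pool.Agent.Run7.h323.TQ.Map

set_option autoImplicit false

/-!
# Generalised abundance for klt pairs on toric bundles over quotients of complex tori

Let `X = V / Γ` be a quotient of a complex torus by any finite group, of any dimension, algebraic or
not (the group may contain reflections). Let `Y → X` be a toric bundle: the fibre is the smooth
complete toric variety with the rays `u i`, and the twists are given by arbitrary line bundles `c i` on
`X`. Let `(Y, Δ)` be a Kawamata log terminal pair with real coefficients; the components of `Δ` are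
arbitrary divisors on `Y`. Suppose that `K_Y + Δ` is pseudoeffective (it is enough that it is effective
on the fibres of `Y → X`). Let `𝓛 = O_Y(a; A)` be a nef line bundle on `Y` such that
`t 𝓛 - (K_Y + Δ)` is nef for some real number `t`. The theorem says that `𝓛` is numerically semiample:
for some flat line bundle `P` on `X` the line bundle `𝓛 ^ N ⊗ P` is generated by its global sections,
where `N` depends only on the fan, the dimension of `X` and the degrees of the components of `Δ` on
the fibres. (With `t = 1` this is the generalised abundance conjecture of Lazić and Peternell for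
`(Y, Δ)`: if `K_Y + Δ` is pseudoeffective, `D` is nef and `K_Y + Δ + D` is nef and the class of a line
bundle, then it is numerically semiample.) The same follows for the pullbacks of `𝓛` to all complex
manifolds `M` with a locally liftable holomorphic map to `Y`; these are the line bundles of the
question if `M` is projective, finite over `Y`, and `K_M` is the pullback of `K_Y + Δ`.

Without the condition on `t 𝓛 - (K_Y + Δ)`, for log canonical pairs, or if `K_Y + Δ` is not
pseudoeffective, this is false, already for projective bundles over elliptic curves.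

The proof: let `e` be a vector of `V` fixed by the linear parts of `Γ` on which the form of the
restriction of `𝓛` to some section `x_i = 0`, `i ∈ σ`, vanishes. Let `w` be the vector of the values
on `e` of the Chern forms of the twists, a vector in the space of the fan. If `w` were not zero, let
`τ` be a maximal cone which contains `-w`. Since `𝓛` is nef, the form of its restriction to the section
given by `τ` vanishes on `e`, too, hence the form of the restriction of `K_Y + Δ` is not positive on
`e`. By the integrability condition at the stratum given by `-w` some exponents of the components of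
`Δ` are on the negative side of this hyperplane, and the form of the corresponding coefficients would
be negative on `e`; but they are sections of line bundles. So `w = 0`, and it follows that the forms of
all coefficients of the components of `Δ` vanish on `e`. As `K_Y + Δ` is effective on the fibres, the
differences of the exponents span the character lattice up to finite index. Hence the twists
`∏ c_i ^ ⟨q, u_i⟩` are torsion on the lattice vectors `e` of this kind, the restrictions of `𝓛` to the
different sections agree there up to torsion, and one flat line bundle `P`, found by averaging over the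
linear parts, makes all of them torsion on the kernels of their Chern forms. By the criterion of the
starting repository (`Pool.Agent.TH735.AQ`, effective version in `Pool.Agent.Q47.EB`) they are
semiample, and their sections times the monomials generate.

The definitions are in `Pool.Agent.Run7.h323.GA.Defs` (`LinEqR`, `IsFibreEff`, `IsNefR`,
`IsPluricanonical`, `adjA`, `adjH`), `Pool.Agent.Run7.h323.CC.Defs` (`EffDivY`, `IsKltY`),
`Pool.Agent.Run7.h323.TQ.Defs` (`IsMax`, `IsGG`, `LiftedMap`, `IsPullback`),
`Pool.Agent.Q47.TB.Defs` (`IsSmoothFan`, `LinEquiv`, `IsSection`) and `Pool.Agent.Q47.FJ.Defs`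
(`Atlas`, `LB`, `IsSec`, `GG`). The others are in `Pool.Agent.W594.SYZ.Defs2`,
`Pool.Agent.W594.SYZ.TQDefs`, `Pool.Agent.TH735.AQ.Defs` (`IsFlat`) and
`Pool.Agent.TH735.AQ.MirDefs`.
-/

namespace Pool.Agent.Results.MP_1149f4_ag.ToricBundles

open Pool.Agent.W594.SYZ2 Pool.Agent.TH735.AQ Q47.TB Q47.FJ Run7.h323.TQ Run7.h323.CC Run7.h323.GA
open Pool.Agent.Y167 (AffGrp)

section

variable {ι κ : Type} [Fintype ι] [Fintype κ] {n : ℕ} {V : Type} [NormedAddCommGroup V]
  [NormedSpace ℂ V]

/-- The Kawamata log terminal pair `(Y, Δ)` on the toric bundle `Y → X = V / Γ` with the twists `c i`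
over the torus quotient `X` of dimension at most `g`: the components of `Δ` have the degrees `d k` on
the fibres, `K = O_X(m K_X)` has the Chern form `HK`, and `K_Y + Δ` is effective on the fibres. -/
structure IsPair (u : ι → Fin n → ℤ) (S : Set (Set ι)) (d : κ → ι → ℤ) (g : ℕ) (Γ : AffGrp V)
    (c : ι → LineBundle Γ) (Hc : ι → V → V → ℂ) (Δ : EffDivY u c κ) (m : ℕ) (K : LineBundle Γ)
    (HK : V → V → ℂ) : Prop where
  dim : Module.finrank ℂ V ≤ g
  torus : IsTorusQuotient Γ
  chern : ∀ i, IsChernForm (c i) (Hc i)
  deg : Δ.d = d
  klt : IsKltY S Δ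
  can : IsPluricanonical Γ m K HK
  eff : IsFibreEff u (adjA Δ)

/-- The line bundle `O_Y(a; A)` is nef, and `t O_Y(a; A) - (K_Y + Δ)` is nef. -/
structure IsNefAdj (u : ι → Fin n → ℤ) (S : Set (Set ι)) {Γ : AffGrp V} {c : ι → LineBundle Γ}
    (Hc : ι → V → V → ℂ) (Δ : EffDivY u c κ) (m : ℕ) (HK : V → V → ℂ) (t : ℝ) (a : ι → ℤ)
    (A : LineBundle Γ) (HA : V → V → ℂ) : Prop where
  chern : IsChernForm A HA
  nef : IsNefR u S Hc (fun i => a i) HA
  adj : IsNefR u S Hc (fun i => t * a i - adjA Δ i) fun v w => t * HA v w - adjH m HK Hc Δ v w

end

/-- Let `(Y, Δ)` be a Kawamata log terminal pair on a toric bundle over a torus quotient, such that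
`K_Y + Δ` is effective on the fibres (in particular if it is pseudoeffective). Let `𝓛 = O_Y(a; A)` be
nef and `t 𝓛 - (K_Y + Δ)` be nef. Then there is a flat line bundle `P` such that `𝓛 ^ N ⊗ P` is
generated by its global sections; and so is each line bundle on a complex manifold `M` which is
isomorphic to its pullback by a map `f` from `M` to `Y`. Here `N` depends only on the fan, on `g` and
on `d`. -/
theorem result {ι κ : Type} [Fintype ι] [Fintype κ] {n : ℕ} (u : ι → Fin n → ℤ) (S : Set (Set ι))
    (hS : IsSmoothFan u S) (g : ℕ) (d : κ → ι → ℤ) :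
    ∃ N : ℕ, 1 ≤ N ∧
      ∀ (V : Type) [NormedAddCommGroup V] [NormedSpace ℂ V] [FiniteDimensional ℂ V]
        (Γ : AffGrp V) (c : ι → LineBundle Γ) (Hc : ι → V → V → ℂ) (Δ : EffDivY u c κ) (m : ℕ)
        (K : LineBundle Γ) (HK : V → V → ℂ), IsPair u S d g Γ c Hc Δ m K HK →
        ∀ (t : ℝ) (a : ι → ℤ) (A : LineBundle Γ) (HA : V → V → ℂ),
          IsNefAdj u S Hc Δ m HK t a A HA →
          ∃ P : LineBundle Γ, IsFlat P ∧
            IsGG u S c (fun i => N * a i) (fun γ v => A.e γ v ^ N * P.e γ v) ∧
            ∀ (E I J : Type) [NormedAddCommGroup E] [NormedSpace ℂ E] (M : Atlas E I J)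
              (f : LiftedMap M u S c) (B : LB M),
              IsPullback f B (fun i => N * a i) (fun γ v => A.e γ v ^ N * P.e γ v) → GG B := by
  classical
  obtain ⟨N₀, hN₀, hu⟩ := exists_uniform hS d
  refine ⟨expN g N₀, Nat.mul_pos (Q47.EB.mink_pos g)
    (Nat.mul_pos (Nat.mul_pos (by norm_num) hN₀) (pow_pos (Q47.EB.mink_pos g) 3)), ?_⟩
  intro V _ _ _ Γ c Hc Δ m K HK hP t a A HA hA
  have hDL : ∀ q : Fin n → ℤ, N₀ • q ∈ DL Δ := by
    rw [DL_eq]
    refine hu _ _ (fun k α hα => ?_) ?_
    · have h1 := occ_deg (Δ := Δ) hα
      rw [hP.deg] at h1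
      exact h1
    · exact exists_N' hS hP.klt hP.eff
  obtain ⟨P, h1, h2⟩ := main hS hP.torus hP.dim hP.chern hN₀ hDL hP.klt hP.eff hP.can hA.chern
    hA.nef hA.adj
  refine ⟨P, h1, h2, fun E I J _ _ M f B hB => ?_⟩
  replace hB : IsPullback f B (fun i => (expN g N₀ : ℤ) * a i)
    (fun γ v => (tensor (A.pow (expN g N₀)) P).e γ v) := hB
  have h3 := gg_pullback hS f (A := B) (b := 1) (d := fun i => (expN g N₀ : ℤ) * a i)
    (L := tensor (A.pow (expN g N₀)) P) (N := 1) (by
      simpa only [Nat.cast_one, one_mul, pow_one] using hB) (by
      simpa only [Nat.cast_one, one_mul, pow_one] using h2)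
  rwa [pow_one] at h3

end Pool.Agent.Results.MP_1149f4_ag.ToricBundles
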